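import Pool.Agent.Y808.DR.Stm2
import Pool.Agent.Y41.DR.KL

/-!
# Project DR (helper808, MP_f322fd_al): the Euler derivation EUL (helper768)
-/

set_option autoImplicit false

namespace Pool.Agent.Y768.DR

open IsLocalRing MvPolynomial Pool.Agent.Y808.DR

universe u

/-- a regular system of parameters -/
theorem exists_param (B : Type u) [CommRing B] [IsRegularLocalRing B] (d : ℕ)
    (hd : ringKrullDim B = (d : ℕ)) :
    ∃ z : Fin d → B, Ideal.span (Set.range z) = maximalIdeal B := by
  have h1 := Pool.Agent.H379R3.finrank_cotangent (B := B)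
  rw [hd] at h1
  have h2 : Module.finrank (ResidueField B) (CotangentSpace B) = d := by exact_mod_cast h1
  let b := Module.finBasisOfFinrankEq (ResidueField B) (CotangentSpace B) h2
  choose z hz using fun i => (maximalIdeal B).toCotangent_surjective (b i)
  exact ⟨fun i => (z i : B), Pool.Agent.H379R3.span_of_basis b z hz⟩

/-- a regular system of parameters adapted to an ideal with regular quotient -/
theorem exists_adapted (d : ℕ) : ∀ (B : Type u) [CommRing B] [IsRegularLocalRing B] (P : Ideal B)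
    [IsRegularLocalRing (B ⧸ P)], ringKrullDim B = (d : ℕ) →
    ∃ (z : Fin d → B) (U : Set (Fin d)), Ideal.span (Set.range z) = maximalIdeal B ∧
      Ideal.span (z '' U) = P := by
  induction d with
  | zero =>
    intro B _ _ P _ h
    have hm := Pool.Agent.H379R3.dim_zero_maximalIdeal_eq_bot h
    have hne : P ≠ ⊤ := Ideal.Quotient.nontrivial_iff.1 inferInstance
    have hPm : P ≤ maximalIdeal B := IsLocalRing.le_maximalIdeal hne
    obtain ⟨z, hz⟩ := exists_param B 0 h
    refine ⟨z, ∅, hz, ?_⟩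
    rw [Set.image_empty, Ideal.span_empty]
    rw [hm, le_bot_iff] at hPm
    exact hPm.symm
  | succ d ih =>
    intro B _ _ P _ h
    by_cases hP : P ≤ maximalIdeal B ^ 2
    · obtain ⟨z, hz⟩ := exists_param B (d + 1) h
      refine ⟨z, ∅, hz, ?_⟩
      rw [Set.image_empty, Ideal.span_empty]
      exact (Pool.Agent.H379R3.eq_bot_of_le_sq P hP).symm
    · obtain ⟨f, hfP, hf2⟩ := Set.not_subset.1 hP
      have hne : P ≠ ⊤ := Ideal.Quotient.nontrivial_iff.1 inferInstance
      have hPm : P ≤ maximalIdeal B := IsLocalRing.le_maximalIdeal hne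
      obtain ⟨hreg, hdim⟩ := Pool.Agent.H379R3.regular_quotient f (hPm hfP) hf2 d h
      have hfle : Ideal.span {f} ≤ P := by
        rw [Ideal.span_singleton_le_iff_mem]; exact hfP
      have e := DoubleQuot.quotQuotEquivQuotOfLE hfle
      have hreg2 : IsRegularLocalRing ((B ⧸ Ideal.span {f}) ⧸
          P.map (Ideal.Quotient.mk (Ideal.span {f}))) :=
        IsRegularLocalRing.of_ringEquiv e.symm
      obtain ⟨z', U', hz', hU'⟩ := ih (B ⧸ Ideal.span {f})
        (P.map (Ideal.Quotient.mk (Ideal.span {f}))) hdim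
      choose z hz using fun i => Ideal.Quotient.mk_surjective (z' i)
      have hff : Ideal.Quotient.mk (Ideal.span {f}) f = 0 :=
        Ideal.Quotient.eq_zero_iff_mem.2 (Ideal.subset_span rfl)
      have key : ∀ K L : Ideal B, f ∈ K → f ∈ L →
          K.map (Ideal.Quotient.mk (Ideal.span {f})) =
            L.map (Ideal.Quotient.mk (Ideal.span {f})) → K = L := by
        intro K L hK hL hKL
        have h1 : ∀ K : Ideal B, f ∈ K → (K.map (Ideal.Quotient.mk (Ideal.span {f}))).comap
            (Ideal.Quotient.mk (Ideal.span {f})) = K := by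
          intro K hK
          rw [Ideal.comap_map_of_surjective _ Ideal.Quotient.mk_surjective]
          rw [sup_eq_left]
          intro x hx
          have h2 : x ∈ Ideal.span {f} := by
            rw [Ideal.mem_comap, Ideal.mem_bot] at hx
            exact Ideal.Quotient.eq_zero_iff_mem.1 hx
          exact (Ideal.span_singleton_le_iff_mem K |>.2 hK) h2
        rw [← h1 K hK, ← h1 L hL, hKL]
      refine ⟨Fin.cons f z, insert 0 (Fin.succ '' U'), ?_, ?_⟩
      · apply key
        · exact Ideal.subset_span ⟨0, rfl⟩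
        · exact hPm hfP
        · rw [Pool.Agent.H379R3.map_mk_maximalIdeal, ← hz', Ideal.map_span]
          apply le_antisymm
          · rw [Ideal.span_le]
            rintro _ ⟨_, ⟨i, rfl⟩, rfl⟩
            refine Fin.cases ?_ (fun i => ?_) i
            · rw [Fin.cons_zero, hff]
              exact Ideal.zero_mem _
            · rw [Fin.cons_succ, hz]
              exact Ideal.subset_span ⟨i, rfl⟩
          · rw [Ideal.span_le]
            rintro _ ⟨i, rfl⟩
            exact Ideal.subset_span ⟨z i, ⟨Fin.succ i, Fin.cons_succ _ _ _⟩, hz i⟩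
      · apply key
        · exact Ideal.subset_span ⟨0, Set.mem_insert _ _, rfl⟩
        · exact hfP
        · rw [← hU', Ideal.map_span]
          apply le_antisymm
          · rw [Ideal.span_le]
            rintro _ ⟨_, ⟨i, hi, rfl⟩, rfl⟩
            rcases hi with hi | ⟨j, hj, rfl⟩
            · rw [hi, Fin.cons_zero, hff]
              exact Ideal.zero_mem _
            · rw [Fin.cons_succ, hz]
              exact Ideal.subset_span ⟨j, hj, rfl⟩
          · rw [Ideal.span_le]
            rintro _ ⟨i, hi, rfl⟩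
            exact Ideal.subset_span ⟨z i, ⟨Fin.succ i, Set.mem_insert_of_mem _ ⟨i, hi, rfl⟩,
              Fin.cons_succ _ _ _⟩, hz i⟩

/-- a derivation which preserves an ideal preserves its powers -/
theorem deriv_pow {κ R : Type u} [CommRing κ] [CommRing R] [Algebra κ R] (D : Derivation κ R R)
    (I : Ideal R) (hD : ∀ a ∈ I, D a ∈ I) (k : ℕ) : ∀ a ∈ I ^ k, D a ∈ I ^ k := by
  induction k with
  | zero => intro a _; simp
  | succ k ih =>
    intro a ha
    rw [pow_succ] at ha ⊢
    refine Submodule.mul_induction_on ha ?_ ?_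
    · intro p hp q hq
      rw [Derivation.leibniz]
      refine Ideal.add_mem _ (Ideal.mul_mem_mul hp (hD q hq)) ?_
      rw [smul_eq_mul, mul_comm q (D p)]
      exact Ideal.mul_mem_mul (ih p hp) hq
    · intro p q hp hq
      rw [map_add]
      exact Ideal.add_mem _ hp hq

/-- the surjection from the polynomial ring -/
theorem exists_Phi (hQR : S_QR.{u}) (B : Type u) [CommRing B] [Algebra ℚ B] [IsRegularLocalRing B]
    (d : ℕ) (z : Fin d → B) (hd : ringKrullDim B = (d : ℕ))
    (hz : Ideal.span (Set.range z) = maximalIdeal B) (N : ℕ) (hN0 : N ≠ 0) :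
    ∃ s : ResidueField B →+* B ⧸ maximalIdeal B ^ N,
      Function.Surjective (eval₂Hom s (fun i => Ideal.Quotient.mk (maximalIdeal B ^ N) (z i))) ∧
      ∀ f, eval₂Hom s (fun i => Ideal.Quotient.mk (maximalIdeal B ^ N) (z i)) f = 0 ↔
        f ∈ idealOfVars (Fin d) (ResidueField B) ^ N := by
  obtain ⟨s, hs⟩ := Pool.Agent.Y41.DR.coeff_field B N hN0
  refine ⟨s, ?_⟩
  set mk : B →+* B ⧸ maximalIdeal B ^ N := Ideal.Quotient.mk (maximalIdeal B ^ N) with hmk
  set 𝔫 : Ideal (B ⧸ maximalIdeal B ^ N) := (maximalIdeal B).map mk with h𝔫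
  let y : Fin d → B ⧸ maximalIdeal B ^ N := fun i => mk (z i)
  have hy𝔫 : Ideal.span (Set.range y) = 𝔫 := by
    have h1 : (Ideal.span (Set.range z)).map mk = 𝔫 := by rw [hz]
    rw [Ideal.map_span, ← Set.range_comp] at h1
    exact h1
  have hy : ∀ i, y i ∈ 𝔫 := fun i => by
    rw [← hy𝔫]
    exact Ideal.subset_span ⟨i, rfl⟩
  change Function.Surjective (eval₂Hom s y) ∧ ∀ f, eval₂Hom s y f = 0 ↔
    f ∈ idealOfVars (Fin d) (ResidueField B) ^ N
  set Φ := eval₂Hom s y with hΦ
  have hpow : ∀ k, k ≤ N → ∀ b : B, mk b ∈ 𝔫 ^ k → b ∈ maximalIdeal B ^ k := by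
    intro k hk b hb
    rw [h𝔫, ← Ideal.map_pow] at hb
    exact (Ideal.mem_quotient_iff_mem (Ideal.pow_le_pow_right hk)).mp hb
  have h𝔫N : 𝔫 ^ N = ⊥ := by
    rw [h𝔫, ← Ideal.map_pow, Ideal.map_quotient_self]
  -- surjectivity
  have hsurj : Function.Surjective Φ := by
    intro r
    obtain ⟨f, hf⟩ := Pool.Agent.Y41.DR.surj s y (fun r => by
      obtain ⟨b, rfl⟩ := Ideal.Quotient.mk_surjective r
      exact ⟨residue B b, by rw [hy𝔫]; exact hs b⟩) N r
    rw [hy𝔫, h𝔫N, Ideal.mem_bot, sub_eq_zero] at hf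
    exact ⟨f, hf.symm⟩
  have hXle : idealOfVars (Fin d) (ResidueField B) ≤ 𝔫.comap Φ := by
    rw [idealOfVars, Ideal.span_le]
    rintro _ ⟨i, rfl⟩
    rw [SetLike.mem_coe, Ideal.mem_comap, hΦ, coe_eval₂Hom, eval₂_X]
    exact hy i
  have hXpow : ∀ k, ∀ f ∈ idealOfVars (Fin d) (ResidueField B) ^ k, Φ f ∈ 𝔫 ^ k := by
    intro k f hf
    have h1 : Φ f ∈ (idealOfVars (Fin d) (ResidueField B) ^ k).map Φ := Ideal.mem_map_of_mem _ hf
    rw [Ideal.map_pow] at h1
    exact Ideal.pow_right_mono (Ideal.map_le_iff_le_comap.mpr hXle) k h1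
  -- the kernel
  have hkey : ∀ k, k ≤ N → ∀ f, Φ f ∈ 𝔫 ^ k → f ∈ idealOfVars (Fin d) (ResidueField B) ^ k := by
    intro k
    induction k with
    | zero => intro _ f _; simp
    | succ k ih =>
      intro hk f hf
      have h1 := ih (by omega) f (Ideal.pow_le_pow_right (Nat.le_succ k) hf)
      rw [mem_pow_idealOfVars_iff'] at h1 ⊢
      obtain ⟨G0, hG0⟩ := map_surjective (residue B) residue_surjective f
      set G := homogeneousComponent k G0 with hG
      have hGh : G.IsHomogeneous k := homogeneousComponent_isHomogeneous k G0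
      have hGf : map (residue B) G = homogeneousComponent k f := by
        ext x
        rw [coeff_map, hG, coeff_homogeneousComponent, coeff_homogeneousComponent, ← hG0,
          coeff_map]
        split_ifs <;> simp
      have h2 : f - homogeneousComponent k f ∈ idealOfVars (Fin d) (ResidueField B) ^ (k + 1) := by
        rw [mem_pow_idealOfVars_iff']
        intro x hx
        rw [coeff_sub, coeff_homogeneousComponent]
        by_cases hxk : x.degree = k
        · rw [if_pos hxk, sub_self]
        · rw [if_neg hxk, sub_zero]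
          exact h1 x (by omega)
      have h3 := hXpow _ _ h2
      rw [map_sub] at h3
      have h4 : Φ (homogeneousComponent k f) ∈ 𝔫 ^ (k + 1) := by
        have := Ideal.sub_mem _ hf h3
        rwa [sub_sub_cancel] at this
      have h5 := Pool.Agent.Y41.DR.compare s mk (residue B) y 𝔫 hy hs k G hGh
      rw [hGf] at h5
      have h6 : eval₂ mk y G ∈ 𝔫 ^ (k + 1) := by
        have := Ideal.add_mem _ h5 h4
        rwa [sub_add_cancel] at this
      have h7 : eval₂ mk y G = mk (eval z G) := by
        have h := eval₂_comp_left mk (RingHom.id B) z G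
        rw [eval₂_id, RingHom.comp_id] at h
        exact h.symm
      rw [h7] at h6
      have h8 := hQR B d z hd hz k G hGh (hpow (k + 1) hk _ h6)
      intro x hx
      by_cases hxk : x.degree = k
      · have h9 : coeff x (map (residue B) G) = 0 := by
          rw [coeff_map, residue_eq_zero_iff]
          exact h8 x
        rw [hGf, coeff_homogeneousComponent, if_pos hxk] at h9
        exact h9
      · exact h1 x (by omega)
  refine ⟨hsurj, fun f => ⟨fun hf => hkey N le_rfl f (by rw [hf]; exact Ideal.zero_mem _),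
    fun hf => ?_⟩⟩
  have h1 := hXpow N f hf
  rw [h𝔫N, Ideal.mem_bot] at h1
  exact h1

theorem t_EUL : S_QR.{u} → S_EUL.{u} := by
  classical
  intro hQR B _ _ _ P hP N
  have := hP
  by_cases hN0 : N = 0
  · subst hN0
    have hsub : Subsingleton (B ⧸ maximalIdeal B ^ 0) := by
      rw [Ideal.Quotient.subsingleton_iff, pow_zero, Ideal.one_eq_top]
    refine ⟨0, fun b => ?_, fun x _ => ?_⟩
    · rw [Subsingleton.elim ((0 : Derivation ℤ B (B ⧸ maximalIdeal B ^ 0)) b) 0]
      exact Ideal.zero_mem _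
    · rw [Subsingleton.elim ((0 : Derivation ℤ B (B ⧸ maximalIdeal B ^ 0)) x -
        Ideal.Quotient.mk (maximalIdeal B ^ 0) x) 0]
      exact Ideal.zero_mem _
  obtain ⟨d, hd⟩ := Pool.Agent.H379R3.exists_dim_eq (B := B)
  obtain ⟨z, U, hz, hU⟩ := exists_adapted d B P hd
  obtain ⟨s, hsurj, hker⟩ := exists_Phi hQR B d z hd hz N hN0
  set mk : B →+* B ⧸ maximalIdeal B ^ N := Ideal.Quotient.mk (maximalIdeal B ^ N) with hmk
  set Φ := eval₂Hom s (fun i => mk (z i)) with hΦ
  have hΦX : ∀ i, Φ (X i) = mk (z i) := fun i => by rw [hΦ, coe_eval₂Hom, eval₂_X]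
  let θ0 : Derivation (ResidueField B) (MvPolynomial (Fin d) (ResidueField B))
      (MvPolynomial (Fin d) (ResidueField B)) :=
    mkDerivation (ResidueField B) (fun i => if i ∈ U then X i else 0)
  have hθX : ∀ i, θ0 (X i) = if i ∈ U then X i else 0 := fun i => mkDerivation_X _ _ _
  have hθI : ∀ a ∈ idealOfVars (Fin d) (ResidueField B), θ0 a ∈
      idealOfVars (Fin d) (ResidueField B) := by
    intro a ha
    rw [idealOfVars] at ha ⊢
    refine Submodule.span_induction ?_ ?_ ?_ ?_ ha
    · rintro _ ⟨i, rfl⟩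
      rw [hθX]
      split_ifs
      · exact Ideal.subset_span ⟨i, rfl⟩
      · exact Ideal.zero_mem _
    · rw [map_zero]
      exact Ideal.zero_mem _
    · intro p q _ _ hp hq
      rw [map_add]
      exact Ideal.add_mem _ hp hq
    · intro c p hp hq
      rw [smul_eq_mul, Derivation.leibniz, smul_eq_mul, smul_eq_mul]
      exact Ideal.add_mem _ (Ideal.mul_mem_left _ _ hq) (Ideal.mul_mem_right _ _ hp)
  have hθN := deriv_pow θ0 _ hθI N
  have hwd : ∀ f g, Φ f = Φ g → Φ (θ0 f) = Φ (θ0 g) := by
    intro f g hfg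
    have h1 : Φ (f - g) = 0 := by rw [map_sub, hfg, sub_self]
    have h2 := (hker _).2 (hθN _ ((hker _).1 h1))
    rw [map_sub, map_sub, sub_eq_zero] at h2
    exact h2
  choose σ hσ using fun b : B => hsurj (mk b)
  have hσ' : ∀ b f, Φ f = mk b → Φ (θ0 (σ b)) = Φ (θ0 f) := fun b f hf =>
    hwd _ _ (by rw [hσ, hf])
  let θ1 : B →+ B ⧸ maximalIdeal B ^ N :=
    { toFun := fun b => Φ (θ0 (σ b))
      map_zero' := by
        rw [hσ' 0 0 (by rw [map_zero, map_zero]), map_zero, map_zero]
      map_add' := fun b c => by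
        rw [hσ' (b + c) (σ b + σ c) (by rw [map_add, map_add, hσ, hσ]), map_add, map_add] }
  have hθ1 : ∀ b, θ1 b = Φ (θ0 (σ b)) := fun b => rfl
  let θ : Derivation ℤ B (B ⧸ maximalIdeal B ^ N) :=
    Derivation.mk' θ1.toIntLinearMap (fun a b => by
      change Φ (θ0 (σ (a * b))) = a • Φ (θ0 (σ b)) + b • Φ (θ0 (σ a))
      rw [hσ' (a * b) (σ a * σ b) (by rw [map_mul, map_mul, hσ, hσ]), Derivation.leibniz,
        smul_eq_mul, smul_eq_mul, map_add, map_mul, map_mul, hσ, hσ, Algebra.smul_def,
        Algebra.smul_def]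
      rfl)
  have hθ : ∀ b, θ b = Φ (θ0 (σ b)) := fun b => rfl
  have hmul : ∀ a b, θ (a * b) = mk a * θ b + mk b * θ a := by
    intro a b
    rw [hθ, hσ' (a * b) (σ a * σ b) (by rw [map_mul, map_mul, hσ, hσ]), Derivation.leibniz,
      smul_eq_mul, smul_eq_mul, map_add, map_mul, map_mul, hσ, hσ, hθ, hθ]
  -- the first property
  have hθU : ∀ f, θ0 f ∈ (P.map mk).comap Φ := by
    intro f
    induction f using MvPolynomial.induction_on with
    | C a =>
      rw [show θ0 (C a) = 0 from θ0.map_algebraMap a]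
      exact Ideal.zero_mem _
    | add p q hp hq =>
      rw [map_add]
      exact Ideal.add_mem _ hp hq
    | mul_X p i hp =>
      rw [Derivation.leibniz, smul_eq_mul, smul_eq_mul]
      refine Ideal.add_mem _ (Ideal.mul_mem_left _ _ ?_) (Ideal.mul_mem_left _ _ hp)
      rw [hθX]
      split_ifs with hi
      · rw [Ideal.mem_comap, hΦX]
        apply Ideal.mem_map_of_mem
        rw [← hU]
        exact Ideal.subset_span ⟨i, hi, rfl⟩
      · exact Ideal.zero_mem _
  have h1 : ∀ b : B, θ b ∈ P.map mk := fun b => hθU (σ b)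
  refine ⟨θ, h1, ?_⟩
  intro x hx
  have hx' : x ∈ Ideal.span (z '' U) := by rw [hU]; exact hx
  refine Submodule.span_induction ?_ ?_ ?_ ?_ hx'
  · rintro _ ⟨i, hi, rfl⟩
    rw [hθ, hσ' (z i) (X i) (hΦX i), hθX, if_pos hi, hΦX, sub_self]
    exact Ideal.zero_mem _
  · rw [map_zero, map_zero, sub_zero]
    exact Ideal.zero_mem _
  · intro p q _ _ hp hq
    rw [map_add, map_add, add_sub_add_comm]
    exact Ideal.add_mem _ hp hq
  · intro c p hp hq
    have hpP : p ∈ P := by rw [← hU]; exact hp
    have h2 : θ (c • p) - mk (c • p) = mk c * (θ p - mk p) + mk p * θ c := by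
      rw [smul_eq_mul, hmul, map_mul]
      ring
    rw [h2]
    refine Ideal.add_mem _ (Ideal.mul_mem_left _ _ hq) ?_
    rw [Ideal.map_pow, pow_two]
    exact Ideal.mul_mem_mul (Ideal.mem_map_of_mem _ hpP) (h1 c)

end Pool.Agent.Y768.DR
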